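import Pool.Agent.Y104.Pce

/-!
# The first cohomology of a group variety with a polarization is a piece
-/

open CategoryTheory AlgebraicGeometry

set_option linter.unusedSectionVars false

universe u v w

namespace Pool.Agent.Y154.Hpc

open Pool.Agent.H914 Pool.Agent.H914.VarClass Pool.Agent.H914.VarClass.Obj
  Pool.Agent.H914.WeilCohomology Pool.Agent.H281R3.HT Pool.Agent.TH125.Gal Pool.Agent.Y104.Geo

theorem pow_expand {R : Type*} [Ring R] {u v β B : R} (huv : Commute u v) (huβ : Commute u β)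
    (hvβ : Commute v β) (huB : u * B = 0) (hβB : β * β * B = 0) (n : ℕ) :
    (u + v + β) ^ n * B = v ^ n * B + (n : R) * (v ^ (n - 1) * β * B) := by
  induction n with
  | zero => simp
  | succ n ih =>
    have h1 : u * (v ^ n * B) = 0 := by
      rw [← mul_assoc, (huv.pow_right n).eq, mul_assoc, huB, mul_zero]
    have h2 : u * ((n : R) * (v ^ (n - 1) * β * B)) = 0 := by
      have : u * ((n : R) * (v ^ (n - 1) * β * B)) = (n : R) * (v ^ (n - 1) * β * (u * B)) := by
        rw [← mul_assoc, (Nat.cast_commute n u).symm.eq, mul_assoc]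
        congr 1
        rw [← mul_assoc, ← mul_assoc, (huv.pow_right (n - 1)).eq, mul_assoc (v ^ (n - 1)), huβ.eq]
        simp only [mul_assoc]
      rw [this, huB, mul_zero, mul_zero]
    have h3 : v * ((n : R) * (v ^ (n - 1) * β * B)) = (n : R) * (v ^ n * β * B) := by
      rcases n with _ | n
      · simp
      · rw [← mul_assoc, (Nat.cast_commute (n + 1) v).symm.eq, mul_assoc]
        congr 1
        rw [Nat.add_sub_cancel, pow_succ' v n]
        simp only [mul_assoc]
    have h4 : β * (v ^ n * B) = v ^ n * β * B := by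
      rw [← mul_assoc, (hvβ.symm.pow_right n).eq]
    have h5 : β * ((n : R) * (v ^ (n - 1) * β * B)) = 0 := by
      have : β * ((n : R) * (v ^ (n - 1) * β * B)) = (n : R) * (v ^ (n - 1) * (β * β * B)) := by
        rw [← mul_assoc, (Nat.cast_commute n β).symm.eq, mul_assoc]
        congr 1
        rw [← mul_assoc, ← mul_assoc, (hvβ.symm.pow_right (n - 1)).eq]
        simp only [mul_assoc]
      rw [this, hβB, mul_zero, mul_zero]
    rw [pow_succ', mul_assoc, ih, mul_add, add_mul, add_mul, add_mul, add_mul, h1, h2, h3, h4, h5,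
      Nat.add_sub_cancel, ← mul_assoc, ← pow_succ']
    push_cast
    rw [add_mul (n : R) 1, one_mul]
    abel

variable {k : Type u} [Field k] {𝒱 : VarClass k} {ops : CycleOps 𝒱}
  {W : WeilCohomology.{u, v} ops}

theorem pow_gr {A : 𝒱.Obj} {ξ : W.H A} (h : ξ ∈ W.gr A 2) (n : ℕ) : ξ ^ n ∈ W.gr A (2 * n) := by
  induction n with
  | zero => rw [pow_zero, mul_zero]; exact W.one_mem A
  | succ n ih =>
    rw [pow_succ]
    exact W.mul_mem ih h

theorem exists_coef {A : 𝒱.Obj} {N : ℕ} (b : Module.Basis (Fin N) W.K (W.gr A 1)) {ξ : W.H A}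
    (hξ : ξ ∈ Submodule.span W.K {c | ∃ a ∈ W.gr A 1, ∃ b ∈ W.gr A 1, c = a * b}) :
    ∃ c : Fin N → Fin N → W.K, ξ = ∑ p, ∑ q, c p q • ((b p : W.H A) * (b q : W.H A)) := by
  induction hξ using Submodule.span_induction with
  | mem z hz =>
    obtain ⟨y, hy, y', hy', rfl⟩ := hz
    have h1 : ∀ y (hy : y ∈ W.gr A 1), y = ∑ p, b.repr ⟨y, hy⟩ p • (b p : W.H A) := by
      intro y hy
      have := congrArg (Submodule.subtype _) (b.sum_repr ⟨y, hy⟩)
      rw [map_sum] at this
      simp only [map_smul, Submodule.subtype_apply] at this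
      exact this.symm
    refine ⟨fun p q => b.repr ⟨y, hy⟩ p * b.repr ⟨y', hy'⟩ q, ?_⟩
    conv_lhs => rw [h1 y hy, h1 y' hy', Finset.sum_mul]
    refine Finset.sum_congr rfl fun p _ => ?_
    rw [Finset.mul_sum]
    refine Finset.sum_congr rfl fun q _ => ?_
    rw [smul_mul_smul_comm]
  | zero => exact ⟨fun _ _ => 0, by simp⟩
  | add y y' _ _ h h' =>
    obtain ⟨c, hc⟩ := h
    obtain ⟨c', hc'⟩ := h'
    refine ⟨fun p q => c p q + c' p q, ?_⟩
    rw [hc, hc', ← Finset.sum_add_distrib]
    refine Finset.sum_congr rfl fun p _ => ?_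
    rw [← Finset.sum_add_distrib]
    exact Finset.sum_congr rfl fun q _ => (add_smul _ _ _).symm
  | smul r y _ h =>
    obtain ⟨c, hc⟩ := h
    refine ⟨fun p q => r * c p q, ?_⟩
    rw [hc, Finset.smul_sum]
    refine Finset.sum_congr rfl fun p _ => ?_
    rw [Finset.smul_sum]
    exact Finset.sum_congr rfl fun q _ => (mul_smul _ _ _).symm

theorem exists_hpiece {A : 𝒱.Obj} (m : A.prod A ⟶ A) (ξ : W.H A)
    (hξ : ξ ∈ Submodule.span W.K (algClasses W A 1))
    (hξ2 : ξ ∈ Submodule.span W.K {c | ∃ a ∈ W.gr A 1, ∃ b ∈ W.gr A 1, c = a * b})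
    (hm : ∀ a ∈ W.gr A 1, W.map m a = W.map (fst A A) a + W.map (snd A A) a)
    (htr : W.tr A (ξ ^ A.dim) ≠ 0) :
    ∃ P : Piece W A, P.e = 1 ∧ P.θ = ξ ^ (A.dim - 1) ∧
      Submodule.span W.K (Set.range P.x) = W.gr A 1 := by
  classical
  set N := Module.finrank W.K (W.gr A 1) with hN
  set b : Module.Basis (Fin N) W.K (W.gr A 1) := Module.finBasis W.K (W.gr A 1) with hb
  set x : Fin N → W.H A := fun p => (b p : W.H A) with hx
  have hxm : ∀ p, x p ∈ W.gr A 1 := fun p => (b p).2
  have hspan : Submodule.span W.K (Set.range x) = W.gr A 1 := by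
    have h1 : Set.range x = (W.gr A 1).subtype '' Set.range b := by
      rw [← Set.range_comp]; rfl
    rw [h1, ← Submodule.map_span, b.span_eq, Submodule.map_top, Submodule.range_subtype]
  have hlin : ∀ c : Fin N → W.K, ∑ p, c p • x p = 0 → ∀ p, c p = 0 := by
    intro c hc
    refine Fintype.linearIndependent_iff.1 b.linearIndependent c ?_
    apply Subtype.ext
    rw [Submodule.coe_sum]
    simp only [Submodule.coe_smul]
    exact hc
  obtain ⟨c, hc⟩ := exists_coef b hξ2
  have hc : ξ = ∑ p, ∑ q, c p q • (x p * x q) := hc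
  have hξg : ξ ∈ W.gr A 2 := by
    rw [hc]
    exact Submodule.sum_mem _ fun p _ => Submodule.sum_mem _ fun q _ =>
      Submodule.smul_mem _ _ (W.mul_mem (hxm p) (hxm q))
  have hξa : ξ ∈ algSpan W A := Submodule.span_mono (Set.subset_iUnion _ 1) hξ
  have hθ : ∀ n, ξ ^ n ∈ algSpan W A := by
    intro n
    induction n with
    | zero => rw [pow_zero]; exact algSpan_one
    | succ n ih => rw [pow_succ]; exact algSpan_mul ih hξa
  set g := A.dim with hg
  set p1 := W.map (fst A A) with hp1
  set p2 := W.map (snd A A) with hp2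
  set M : Fin N → Fin N → W.K := fun p q => c p q - c q p with hM
  set β := W.map m ξ - p1 ξ - p2 ξ with hβ
  have hp1m : ∀ {i : ℕ} {a : W.H A}, a ∈ W.gr A i → p1 a ∈ W.gr (A.prod A) i := fun h => W.map_mem _ h
  have hp2m : ∀ {i : ℕ} {a : W.H A}, a ∈ W.gr A i → p2 a ∈ W.gr (A.prod A) i := fun h => W.map_mem _ h
  have hanti : ∀ p q, p2 (x p) * p1 (x q) = -(p1 (x q) * p2 (x p)) := by
    intro p q
    have := W.comm (hp2m (hxm p)) (hp1m (hxm q))
    rw [this]
    simp
  have hβM : β = ∑ p, ∑ q, M p q • (p1 (x p) * p2 (x q)) := by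
    have e1 : W.map m ξ = ∑ p, ∑ q, c p q • ((p1 (x p) + p2 (x p)) * (p1 (x q) + p2 (x q))) := by
      rw [hc, map_sum]
      refine Finset.sum_congr rfl fun p _ => ?_
      rw [map_sum]
      refine Finset.sum_congr rfl fun q _ => ?_
      rw [map_smul, map_mul, hm _ (hxm p), hm _ (hxm q)]
    have e2 : ∀ f : W.H A →ₐ[W.K] W.H (A.prod A), f ξ = ∑ p, ∑ q, c p q • (f (x p) * f (x q)) := by
      intro f
      rw [hc, map_sum]
      refine Finset.sum_congr rfl fun p _ => ?_
      rw [map_sum]
      refine Finset.sum_congr rfl fun q _ => ?_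
      rw [map_smul, map_mul]
    have e3 : β = ∑ p, ∑ q, c p q • (p1 (x p) * p2 (x q)) - ∑ p, ∑ q, c p q • (p1 (x q) * p2 (x p)) := by
      rw [hβ, e1, e2 p1, e2 p2, ← Finset.sum_sub_distrib, ← Finset.sum_sub_distrib,
        ← Finset.sum_sub_distrib]
      refine Finset.sum_congr rfl fun p _ => ?_
      rw [← Finset.sum_sub_distrib, ← Finset.sum_sub_distrib, ← Finset.sum_sub_distrib]
      refine Finset.sum_congr rfl fun q _ => ?_
      rw [← smul_sub, ← smul_sub, ← smul_sub]
      congr 1
      rw [add_mul, mul_add, mul_add, hanti]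
      abel
    rw [e3, Finset.sum_comm (f := fun p q => c p q • (p1 (x q) * p2 (x p))),
      ← Finset.sum_sub_distrib]
    refine Finset.sum_congr rfl fun p _ => ?_
    rw [← Finset.sum_sub_distrib]
    refine Finset.sum_congr rfl fun q _ => ?_
    rw [hM, sub_smul]
  have hβa : β ∈ algSpan W (A.prod A) :=
    Submodule.sub_mem _ (Submodule.sub_mem _ (algSpan_map _ hξa) (algSpan_map _ hξa))
      (algSpan_map _ hξa)
  have hβg : β ∈ W.gr (A.prod A) (2 * 1) :=
    Submodule.sub_mem _ (Submodule.sub_mem _ (W.map_mem _ hξg) (hp1m hξg)) (hp2m hξg)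
  set τ := W.tr A (ξ ^ g) with hτ
  set Q : Matrix (Fin N) (Fin N) W.K := Matrix.of fun p q => W.tr A (x p * x q * ξ ^ (g - 1)) with hQ
  have hQM : ∀ p l, τ * (if l = p then 1 else 0) = g * ∑ q, M p q * Q l q := by
    intro p l
    rcases Nat.eq_zero_or_pos g with h0 | h0
    · exfalso
      have h1 : W.gr A 1 = ⊥ := W.gr_eq_bot A 1 (by rw [← hg, h0]; norm_num)
      have h2 := hxm l
      rw [h1, Submodule.mem_bot] at h2
      have h3 := b.ne_zero l
      exact h3 (Subtype.ext h2)
    have hodd : 2 * g - 1 + 1 = 2 * g := by omega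
    have hbot : ∀ {i : ℕ} {a : W.H A}, a ∈ W.gr A i → 2 * g < i → a = 0 := by
      intro i a ha hi
      rw [W.gr_eq_bot A i hi, Submodule.mem_bot] at ha
      exact ha
    have key : ∀ b' ∈ W.gr A (2 * g - 1), W.tr A ((τ • x l - (g : W.K) • ∑ p, (∑ q, M p q * Q l q) • x p) * b') = 0 := by
      intro b' hb'
      set B := p1 b' with hB
      have hxb : ∀ y ∈ W.gr A 1, y * b' ∈ W.gr A (2 * g) := by
        intro y hy
        have := W.mul_mem hy hb'
        rwa [show 1 + (2 * g - 1) = 2 * g by omega] at this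
      have hBM : β * B = -∑ p, ∑ q, M p q • (p1 (x p * b') * p2 (x q)) := by
        rw [hβM, Finset.sum_mul, ← Finset.sum_neg_distrib]
        refine Finset.sum_congr rfl fun p _ => ?_
        rw [Finset.sum_mul, ← Finset.sum_neg_distrib]
        refine Finset.sum_congr rfl fun q _ => ?_
        have h1 := W.comm (hp2m (hxm q)) (hp1m hb')
        rw [smul_mul_assoc, mul_assoc, hB, h1, one_mul, ← smul_neg]
        congr 1
        have h2 : (-1 : W.K) ^ (2 * g - 1) = -1 := by
          rw [Odd.neg_one_pow]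
          exact ⟨g - 1, by omega⟩
        rw [h2, neg_one_smul, mul_neg, ← mul_assoc, map_mul]
      have hyβB : ∀ y ∈ W.gr A 1, p1 y * (β * B) = 0 := by
        intro y hy
        rw [hBM, mul_neg, neg_eq_zero, Finset.mul_sum]
        refine Finset.sum_eq_zero fun p _ => ?_
        rw [Finset.mul_sum]
        refine Finset.sum_eq_zero fun q _ => ?_
        have h1 : y * (x p * b') = 0 := hbot (W.mul_mem hy (hxb _ (hxm p))) (by omega)
        rw [mul_smul_comm, ← mul_assoc, ← map_mul, h1, map_zero, zero_mul, smul_zero]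
      have hββB : β * β * B = 0 := by
        rw [mul_assoc]
        conv_lhs => rw [hβM, Finset.sum_mul]
        refine Finset.sum_eq_zero fun p _ => ?_
        rw [Finset.sum_mul]
        refine Finset.sum_eq_zero fun q _ => ?_
        have h1 : p1 (x p) * p2 (x q) = -(p2 (x q) * p1 (x p)) := by rw [hanti, neg_neg]
        rw [smul_mul_assoc, h1, neg_mul, mul_assoc, ← hβM, hyβB _ (hxm p), mul_zero, neg_zero,
          smul_zero]
      have huB : p1 ξ * B = 0 := by
        have h1 : ξ * b' = 0 := hbot (W.mul_mem hξg hb') (by omega)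
        rw [hB, ← map_mul, h1, map_zero]
      have hexp := pow_expand (u := p1 ξ) (v := p2 ξ) (β := β) (B := B)
        (W.even_comm (p := 1) (hp1m hξg) _) (W.even_comm (p := 1) (hp1m hξg) _)
        (W.even_comm (p := 1) (hp2m hξg) _) huB hββB g
      have hmξ : W.map m ξ = p1 ξ + p2 ξ + β := by rw [hβ]; abel
      have h0 : x l * ξ ^ g = 0 := hbot (W.mul_mem (hxm l) (pow_gr hξg g)) (by omega)
      have h1 : W.map m (x l * ξ ^ g) * B = 0 := by rw [h0, map_zero, zero_mul]
      rw [map_mul, map_pow, hmξ, hm _ (hxm l), mul_assoc, hexp, add_mul, mul_add, mul_add] at h1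
      have hvc : ∀ (n : ℕ) (z : W.H (A.prod A)), p2 (ξ ^ n) * z = z * p2 (ξ ^ n) := fun n z =>
        W.even_comm (hp2m (pow_gr hξg n)) z
      have t1 : p1 (x l) * (p2 ξ ^ g * B) = p1 (x l * b') * p2 (ξ ^ g) := by
        rw [← map_pow, hvc, ← mul_assoc, hB, ← map_mul]
      have t2 : p2 (x l) * (p2 ξ ^ g * B) = 0 := by
        rw [← map_pow, ← mul_assoc, ← map_mul, h0, map_zero, zero_mul]
      have t3 : p1 (x l) * ((g : W.H (A.prod A)) * (p2 ξ ^ (g - 1) * β * B)) = 0 := by
        have : p1 (x l) * ((g : W.H (A.prod A)) * (p2 ξ ^ (g - 1) * β * B))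
            = (g : W.H (A.prod A)) * (p2 (ξ ^ (g - 1)) * (p1 (x l) * (β * B))) := by
          rw [← mul_assoc, (Nat.cast_commute g (p1 (x l))).symm.eq, mul_assoc]
          congr 1
          rw [← map_pow, mul_assoc, ← mul_assoc, ← hvc, mul_assoc]
        rw [this, hyβB _ (hxm l), mul_zero, mul_zero]
      have t4 : p2 (x l) * ((g : W.H (A.prod A)) * (p2 ξ ^ (g - 1) * β * B))
          = -((g : W.K) • ∑ p, ∑ q, M p q • (p1 (x p * b') * p2 (x l * x q * ξ ^ (g - 1)))) := by
        have e1 : p2 (x l) * ((g : W.H (A.prod A)) * (p2 ξ ^ (g - 1) * β * B))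
            = (g : W.H (A.prod A)) * (p2 (x l * ξ ^ (g - 1)) * (β * B)) := by
          rw [← mul_assoc, (Nat.cast_commute g (p2 (x l))).symm.eq, mul_assoc]
          congr 1
          rw [← map_pow, map_mul]
          simp only [mul_assoc]
        rw [e1, hBM, mul_neg, mul_neg, ← nsmul_eq_mul, Nat.cast_smul_eq_nsmul]
        congr 2
        rw [Finset.mul_sum]
        refine Finset.sum_congr rfl fun p _ => ?_
        rw [Finset.mul_sum]
        refine Finset.sum_congr rfl fun q _ => ?_
        rw [mul_smul_comm]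
        congr 1
        have h2 : p2 (x l * ξ ^ (g - 1)) * p1 (x p * b') = p1 (x p * b') * p2 (x l * ξ ^ (g - 1)) :=
          (W.even_comm (hp1m (hxb _ (hxm p))) _).symm
        have h3 : ξ ^ (g - 1) * x q = x q * ξ ^ (g - 1) := W.even_comm (pow_gr hξg _) _
        rw [← mul_assoc, h2, mul_assoc, ← map_mul, mul_assoc (x l), h3, ← mul_assoc (x l)]
      rw [t1, t2, t3, t4, zero_add, add_zero] at h1
      have h2 := congrArg (W.tr (A.prod A)) h1
      have hT : ∀ a b, W.tr (A.prod A) (p1 a * p2 b) = W.tr A a * W.tr A b := fun a b =>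
        W.tr_prod a b
      rw [map_add, map_neg, map_smul, map_sum, map_zero, hT] at h2
      simp only [map_sum, map_smul, hT] at h2
      rw [sub_mul, map_sub, smul_mul_assoc, map_smul, smul_mul_assoc, map_smul, Finset.sum_mul, map_sum]
      simp only [smul_mul_assoc, map_smul, smul_eq_mul] at h2 ⊢
      rw [sub_eq_add_neg]
      rw [← h2, mul_comm τ]
      congr 3
      refine Finset.sum_congr rfl fun p _ => ?_
      rw [Finset.sum_mul]
      refine Finset.sum_congr rfl fun q _ => ?_
      rw [hQ, Matrix.of_apply]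
      ring
    have hz : τ • x l - (g : W.K) • ∑ p, (∑ q, M p q * Q l q) • x p = 0 := by
      have hmem : τ • x l - (g : W.K) • ∑ p, (∑ q, M p q * Q l q) • x p ∈ W.gr A 1 :=
        Submodule.sub_mem _ (Submodule.smul_mem _ _ (hxm l))
          (Submodule.smul_mem _ _ (Submodule.sum_mem _ fun p _ => Submodule.smul_mem _ _ (hxm p)))
      apply W.nondeg
      intro d
      refine gr_induction (W.isInternal A) (p := fun d => W.tr A ((τ • x l - (g : W.K) •
        ∑ p, (∑ q, M p q * Q l q) • x p) * d) = 0) ?_ ?_ d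
      · intro i d hd
        by_cases hi : i = 2 * g - 1
        · subst hi
          exact key d hd
        · exact W.tr_eq_zero (W.mul_mem hmem hd) (by rw [← hg]; omega)
      · intro d d' h h'
        rw [mul_add, map_add, h, h', add_zero]
    have h4 : ∑ p, (τ * (if l = p then 1 else 0) - g * ∑ q, M p q * Q l q) • x p = 0 := by
      simp only [sub_smul, Finset.sum_sub_distrib]
      rw [← hz, Finset.smul_sum]
      congr 1
      · rw [Finset.sum_eq_single l]
        · simp
        · intro p _ hp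
          rw [if_neg (fun e => hp e.symm), mul_zero, zero_smul]
        · intro h; exact absurd (Finset.mem_univ _) h
      · exact Finset.sum_congr rfl fun p _ => mul_smul _ _ _
    exact sub_eq_zero.1 (hlin _ h4 p)
  have hQanti : ∀ p q, Q q p = -Q p q := by
    intro p q
    rw [hQ, Matrix.of_apply, Matrix.of_apply]
    have := W.comm (hxm q) (hxm p)
    rw [this]
    simp
  have hMQ : (Matrix.of fun p q => -((g : W.K) / τ) * M p q) * Q = 1 := by
    ext p l
    rw [Matrix.mul_apply, Matrix.one_apply]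
    simp only [Matrix.of_apply]
    have h1 := hQM p l
    have h2 : ∑ q, -((g : W.K) / τ) * M p q * Q q l = (g * ∑ q, M p q * Q l q) / τ := by
      rw [Finset.mul_sum, Finset.sum_div]
      refine Finset.sum_congr rfl fun q _ => ?_
      rw [hQanti l q]
      ring
    rw [h2, ← h1]
    by_cases e : p = l
    · rw [if_pos e.symm, if_pos e, mul_one, div_self htr]
    · rw [if_neg (fun e' => e e'.symm), if_neg e, mul_zero, zero_div]
  refine ⟨{ J := Fin N, fin := inferInstance, dec := inferInstance, x := x, e := 1,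
            x_mem := fun p => hpar_of rfl (hxm p), θ := ξ ^ (g - 1), θ_mem := hθ _, Q := Q,
            Q_eq := fun p q => rfl,
            isUnit := ?_, β_mem := ?_ }, rfl, rfl, hspan⟩
  · exact ⟨⟨Q, _, mul_eq_one_comm.1 hMQ, hMQ⟩, rfl⟩
  · rw [Matrix.inv_eq_left_inv hMQ]
    have h1 : ∑ p, ∑ q, (Matrix.of fun p q => -((g : W.K) / τ) * M p q) p q • (p1 (x p) * p2 (x q))
        = (-((g : W.K) / τ)) • β := by
      rw [hβM, Finset.smul_sum]
      refine Finset.sum_congr rfl fun p _ => ?_
      rw [Finset.smul_sum]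
      refine Finset.sum_congr rfl fun q _ => ?_
      rw [Matrix.of_apply, mul_smul]
    rw [h1]
    exact Submodule.smul_mem _ _ hβa

end Pool.Agent.Y154.Hpc
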