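import Mathlib

/-!
# The trace form of a star algebra without stable isotropic subspaces
-/

set_option autoImplicit false

open Matrix

namespace Pool.Agent.Y154.Trf

/-- An idempotent matrix with zero trace is zero (characteristic zero). -/
theorem eq_zero_of_idem {K : Type*} [Field K] [CharZero K] {n : Type*} [Fintype n]
    [DecidableEq n] (e : Matrix n n K) (he : e * e = e) (ht : e.trace = 0) : e = 0 := by
  have h1 : IsIdempotentElem (Matrix.toLin' e) := by
    show Matrix.toLin' e * Matrix.toLin' e = Matrix.toLin' e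
    rw [Module.End.mul_eq_comp, ← Matrix.toLin'_mul, he]
  have h2 : LinearMap.trace K (n → K) (Matrix.toLin' e) = 0 := by
    rw [Matrix.trace_toLin'_eq, ht]
  have h3 := (LinearMap.IsIdempotentElem.trace_eq_zero_iff h1).1 h2
  exact (Matrix.toLin'.map_eq_zero_iff).1 h3

/-- An element of a subalgebra which is orthogonal to the subalgebra for the trace form is
nilpotent. -/
theorem nilpotent_of_trace {K : Type*} [Field K] [CharZero K] {n : Type*} [Fintype n]
    [DecidableEq n] (E : Subalgebra K (Matrix n n K)) (x : Matrix n n K) (hx : x ∈ E)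
    (h : ∀ y ∈ E, (x * y).trace = 0) : IsNilpotent x := by
  have hint : IsIntegral K x := Algebra.IsIntegral.isIntegral x
  have hne : minpoly K x ≠ 0 := minpoly.ne_zero hint
  obtain ⟨g, hg, hnd⟩ := Polynomial.exists_eq_pow_rootMultiplicity_mul_and_not_dvd
    (minpoly K x) hne 0
  set m := (minpoly K x).rootMultiplicity 0 with hm
  rw [Polynomial.C_0, sub_zero] at hg hnd
  have hcop : IsCoprime (Polynomial.X : Polynomial K) g :=
    (Polynomial.prime_X.coprime_iff_not_dvd).2 hnd
  have hcop' : IsCoprime ((Polynomial.X : Polynomial K) ^ (m + 1)) g := hcop.pow_left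
  obtain ⟨u, v, huv⟩ := hcop'
  have hmul : ∀ p : Polynomial K, minpoly K x ∣ p → Polynomial.aeval x p = 0 := by
    rintro p ⟨r, rfl⟩
    rw [map_mul, minpoly.aeval, zero_mul]
  set e := Polynomial.aeval x (u * Polynomial.X ^ (m + 1)) with he
  have hone : e + Polynomial.aeval x (v * g) = 1 := by
    rw [he, ← map_add, huv, map_one]
  have hidem : e * e = e := by
    have h1 : e * Polynomial.aeval x (v * g) = 0 := by
      rw [he, ← map_mul]
      apply hmul
      rw [hg]
      exact ⟨u * Polynomial.X * v, by ring⟩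
    have h2 := congrArg (fun t => e * t) hone
    simp only [mul_add, mul_one] at h2
    rw [h1, add_zero] at h2
    exact h2
  have hexy : e = x * Polynomial.aeval x (u * Polynomial.X ^ m) := by
    rw [he]
    have : u * Polynomial.X ^ (m + 1) = Polynomial.X * (u * Polynomial.X ^ m) := by ring
    rw [this, map_mul, Polynomial.aeval_X]
  have hmem : Polynomial.aeval x (u * Polynomial.X ^ m) ∈ E := by
    have h1 := Polynomial.aeval_subalgebra_coe (u * Polynomial.X ^ m) E ⟨x, hx⟩
    rw [← h1]
    exact Subtype.property _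
  have htr : e.trace = 0 := by
    rw [hexy]
    exact h _ hmem
  have he0 := eq_zero_of_idem e hidem htr
  refine ⟨m, ?_⟩
  rw [he0, zero_add] at hone
  calc x ^ m = x ^ m * Polynomial.aeval x (v * g) := by rw [hone, mul_one]
    _ = Polynomial.aeval x (Polynomial.X ^ m * (v * g)) := by
        rw [map_mul (Polynomial.aeval x) (Polynomial.X ^ m), map_pow, Polynomial.aeval_X]
    _ = 0 := by
        apply hmul
        rw [hg]
        exact ⟨v, by ring⟩

/-- A set of nilpotent elements of a finite-dimensional subalgebra that is a two-sided ideal is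
nilpotent. -/
theorem exists_length {K : Type*} [Field K] {n : Type*} [Fintype n] [DecidableEq n]
    (E : Subalgebra K (Matrix n n K)) (J : Submodule K (Matrix n n K)) (hJE : ∀ x ∈ J, x ∈ E)
    (hl : ∀ e ∈ E, ∀ x ∈ J, e * x ∈ J) (hn : ∀ x ∈ J, IsNilpotent x) :
    ∃ k : ℕ, ∀ l : List (Matrix n n K), (∀ x ∈ l, x ∈ J) → k ≤ l.length → l.prod = 0 := by
  let I : Ideal E :=
    { carrier := {x | (x : Matrix n n K) ∈ J}
      add_mem' := fun {a b} ha hb => by
        show ((a + b : E) : Matrix n n K) ∈ J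
        exact J.add_mem ha hb
      zero_mem' := by
        show ((0 : E) : Matrix n n K) ∈ J
        exact J.zero_mem
      smul_mem' := fun c x hx => by
        show ((c * x : E) : Matrix n n K) ∈ J
        exact hl _ c.2 _ hx }
  have : IsArtinianRing E := IsArtinianRing.of_finite K E
  have hI : I ≤ Ring.jacobson E := by
    rw [← Ideal.jacobson_bot]
    intro x hx
    rw [Ideal.mem_jacobson_iff]
    intro y
    have h1 : IsNilpotent (y * x) := by
      have h2 : IsNilpotent ((y * x : E) : Matrix n n K) := hn _ (hl _ y.2 _ hx)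
      obtain ⟨k, hk⟩ := h2
      refine ⟨k, Subtype.ext ?_⟩
      rw [SubmonoidClass.coe_pow]
      exact hk
    have h3 : IsUnit (1 + y * x) := h1.isUnit_one_add
    obtain ⟨z, hz⟩ := h3.exists_left_inv
    refine ⟨z, ?_⟩
    rw [Ideal.mem_bot, mul_assoc]
    rw [mul_add, mul_one] at hz
    rw [add_comm (z * (y * x)) z, hz, sub_self]
  obtain ⟨k, hk⟩ := (IsSemiprimaryRing.isNilpotent : IsNilpotent (Ring.jacobson E))
  refine ⟨k, fun l hlm hlen => ?_⟩
  have key : ∀ l : List (Matrix n n K), (∀ x ∈ l, x ∈ J) →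
      ∃ z : E, (z : Matrix n n K) = l.prod ∧ z ∈ (Ring.jacobson E) ^ l.length := by
    intro l
    induction l with
    | nil =>
      intro _
      exact ⟨1, by simp, by rw [List.length_nil, Submodule.pow_zero, Ideal.one_eq_top]; trivial⟩
    | cons a l ih =>
      intro h
      obtain ⟨z, hz1, hz2⟩ := ih fun x hx => h x (List.mem_cons_of_mem _ hx)
      have ha : a ∈ J := h a List.mem_cons_self
      refine ⟨⟨a, hJE a ha⟩ * z, ?_, ?_⟩
      · rw [List.prod_cons, ← hz1]
        rfl
      · rw [List.length_cons, Ideal.IsTwoSided.pow_succ]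
        exact Ideal.mul_mem_mul (hI (show ((⟨a, hJE a ha⟩ : E) : Matrix n n K) ∈ J from ha)) hz2
  obtain ⟨z, hz1, hz2⟩ := key l hlm
  have h0 : (Ring.jacobson E) ^ l.length ≤ (Ring.jacobson E) ^ k := Ideal.pow_le_pow_right hlen
  have h1 := h0 hz2
  rw [hk] at h1
  have h2 : z = 0 := by
    simpa using h1
  rw [← hz1, h2]
  rfl

/-- The trace form of a star algebra without stable isotropic subspaces is nondegenerate. -/
theorem trace_nondeg {K : Type*} [Field K] [CharZero K] {n : Type*} [Fintype n]
    [DecidableEq n] (E : Subalgebra K (Matrix n n K)) (Q : Matrix n n K) (hQ : IsUnit Q)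
    (hadj : ∀ e ∈ E, Q⁻¹ * eᵀ * Q ∈ E) (G : Set (Matrix n n K)) (hG : ∀ g ∈ G, IsUnit g)
    (hGE : ∀ g ∈ G, ∀ e ∈ E, g * e * g⁻¹ ∈ E ∧ g⁻¹ * e * g ∈ E)
    (hiso : ∀ W : Submodule K (n → K), (∀ g ∈ G, ∀ x ∈ W, g *ᵥ x ∈ W) →
      (∀ e ∈ E, ∀ x ∈ W, e *ᵥ x ∈ W) → (∀ x ∈ W, ∀ y ∈ W, x ⬝ᵥ (Q *ᵥ y) = 0) → W = ⊥) :
    ∀ x ∈ E, (∀ y ∈ E, (x * y).trace = 0) → x = 0 := by
  have hQd : IsUnit Q.det := (Matrix.isUnit_iff_isUnit_det Q).1 hQ
  have hQ1 : Q * Q⁻¹ = 1 := Matrix.mul_nonsing_inv Q hQd
  have hQ2 : Q⁻¹ * Q = 1 := Matrix.nonsing_inv_mul Q hQd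
  -- the adjoint is surjective on E
  let φ : E →ₗ[K] E :=
    { toFun := fun e => ⟨Q⁻¹ * (e : Matrix n n K)ᵀ * Q, hadj _ e.2⟩
      map_add' := fun a b => by
        apply Subtype.ext
        show Q⁻¹ * ((a : Matrix n n K) + (b : Matrix n n K))ᵀ * Q =
          Q⁻¹ * (a : Matrix n n K)ᵀ * Q + Q⁻¹ * (b : Matrix n n K)ᵀ * Q
        rw [transpose_add, mul_add, add_mul]
      map_smul' := fun c a => by
        apply Subtype.ext
        show Q⁻¹ * (c • (a : Matrix n n K))ᵀ * Q = c • (Q⁻¹ * (a : Matrix n n K)ᵀ * Q)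
        rw [transpose_smul, mul_smul_comm, smul_mul_assoc] }
  have hcancel : ∀ a : Matrix n n K, Q * (Q⁻¹ * a * Q) * Q⁻¹ = a := by
    intro a
    calc Q * (Q⁻¹ * a * Q) * Q⁻¹ = (Q * Q⁻¹) * a * (Q * Q⁻¹) := by simp only [Matrix.mul_assoc]
      _ = a := by rw [hQ1, Matrix.one_mul, Matrix.mul_one]
  have hφinj : Function.Injective φ := by
    intro a b hab
    have h1 : Q⁻¹ * (a : Matrix n n K)ᵀ * Q = Q⁻¹ * (b : Matrix n n K)ᵀ * Q :=
      congrArg Subtype.val hab
    have h2 := congrArg (fun t => Q * t * Q⁻¹) h1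
    simp only [hcancel] at h2
    exact Subtype.ext (Matrix.transpose_injective h2)
  have hφsurj : Function.Surjective φ := LinearMap.injective_iff_surjective.1 hφinj
  have hadjsurj : ∀ y ∈ E, ∃ z ∈ E, Q⁻¹ * zᵀ * Q = y := by
    intro y hy
    obtain ⟨z, hz⟩ := hφsurj ⟨y, hy⟩
    exact ⟨z, z.2, congrArg Subtype.val hz⟩
  let J : Submodule K (Matrix n n K) :=
    { carrier := {x | x ∈ E ∧ ∀ y ∈ E, (x * y).trace = 0}
      add_mem' := fun {a b} ha hb => ⟨E.add_mem ha.1 hb.1, fun y hy => by
        rw [add_mul, trace_add, ha.2 y hy, hb.2 y hy, add_zero]⟩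
      zero_mem' := ⟨E.zero_mem, fun y _ => by rw [zero_mul, trace_zero]⟩
      smul_mem' := fun c x hx => ⟨E.smul_mem hx.1 c, fun y hy => by
        rw [smul_mul_assoc, trace_smul, hx.2 y hy, smul_zero]⟩ }
  have hJE : ∀ x ∈ J, x ∈ E := fun x hx => hx.1
  have hJl : ∀ e ∈ E, ∀ x ∈ J, e * x ∈ J := by
    intro e he x hx
    refine ⟨E.mul_mem he hx.1, fun y hy => ?_⟩
    rw [Matrix.mul_assoc, Matrix.trace_mul_comm, Matrix.mul_assoc]
    exact hx.2 _ (E.mul_mem hy he)
  have hJn : ∀ x ∈ J, IsNilpotent x := fun x hx => nilpotent_of_trace E x hx.1 hx.2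
  have hJadj : ∀ x ∈ J, Q⁻¹ * xᵀ * Q ∈ J := by
    intro x hx
    refine ⟨hadj _ hx.1, fun y hy => ?_⟩
    obtain ⟨z, hz, rfl⟩ := hadjsurj y hy
    have h1 : Q⁻¹ * xᵀ * Q * (Q⁻¹ * zᵀ * Q) = Q⁻¹ * (z * x)ᵀ * Q := by
      rw [transpose_mul]
      calc Q⁻¹ * xᵀ * Q * (Q⁻¹ * zᵀ * Q) = Q⁻¹ * xᵀ * (Q * Q⁻¹) * zᵀ * Q := by
            simp only [Matrix.mul_assoc]
        _ = Q⁻¹ * (xᵀ * zᵀ) * Q := by rw [hQ1, Matrix.mul_one]; simp only [Matrix.mul_assoc]
    rw [h1, Matrix.trace_mul_comm, ← Matrix.mul_assoc, hQ1, Matrix.one_mul, trace_transpose,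
      Matrix.trace_mul_comm]
    exact hx.2 z hz
  have hJG : ∀ g ∈ G, ∀ x ∈ J, g * x * g⁻¹ ∈ J := by
    intro g hg x hx
    refine ⟨(hGE g hg x hx.1).1, fun y hy => ?_⟩
    have h1 : (g * x * g⁻¹ * y).trace = (x * (g⁻¹ * y * g)).trace := by
      rw [Matrix.mul_assoc, Matrix.mul_assoc, Matrix.trace_mul_comm]
      simp only [Matrix.mul_assoc]
    rw [h1]
    exact hx.2 _ (hGE g hg y hy).2
  obtain ⟨k, hk⟩ := exists_length E J hJE hJl hJn
  have hex : ∃ k : ℕ, ∀ l : List (Matrix n n K), (∀ x ∈ l, x ∈ J) → k ≤ l.length → l.prod = 0 :=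
    ⟨k, hk⟩
  classical
  have hfind := Nat.find_spec hex
  set m := Nat.find hex with hm
  have hmin : ∀ j < m, ∃ l : List (Matrix n n K), (∀ x ∈ l, x ∈ J) ∧ j ≤ l.length ∧
      l.prod ≠ 0 := by
    intro j hj
    have h1 := Nat.find_min hex hj
    push Not at h1
    exact h1
  by_contra hcon
  push Not at hcon
  obtain ⟨x0, hx0E, hx0J, hx0⟩ := hcon
  have hx0J' : x0 ∈ J := ⟨hx0E, hx0J⟩
  have hm2 : 2 ≤ m := by
    by_contra hlt
    have h1 := hfind [x0] (by simpa using hx0J') (by simp; omega)
    simp at h1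
    exact hx0 h1
  obtain ⟨l0, hl0J, hl0len, hl0⟩ := hmin (m - 1) (by omega)
  let S : Set (n → K) := {w | ∃ (l : List (Matrix n n K)) (v : n → K), (∀ x ∈ l, x ∈ J) ∧
    m - 1 ≤ l.length ∧ w = l.prod *ᵥ v}
  have hW : Submodule.span K S = ⊥ := by
    apply hiso
    · intro g hg x hx
      induction hx using Submodule.span_induction with
      | mem w hw =>
        obtain ⟨l, v, hl, hlen, rfl⟩ := hw
        apply Submodule.subset_span
        have hgd : IsUnit g.det := (Matrix.isUnit_iff_isUnit_det g).1 (hG g hg)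
        refine ⟨l.map (fun a => g * a * g⁻¹), g *ᵥ v, ?_, by simpa using hlen, ?_⟩
        · intro x hx
          obtain ⟨a, ha, rfl⟩ := List.mem_map.1 hx
          exact hJG g hg a (hl a ha)
        · have h1 : ∀ l : List (Matrix n n K), (l.map (fun a => g * a * g⁻¹)).prod * g =
              g * l.prod := by
            intro l
            induction l with
            | nil => simp
            | cons a l ih =>
              rw [List.map_cons, List.prod_cons, List.prod_cons, Matrix.mul_assoc, ih]
              calc g * a * g⁻¹ * (g * l.prod) = g * a * (g⁻¹ * g) * l.prod := by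
                    simp only [Matrix.mul_assoc]
                _ = g * (a * l.prod) := by
                    rw [Matrix.nonsing_inv_mul g hgd, Matrix.mul_one, Matrix.mul_assoc]
          rw [Matrix.mulVec_mulVec, Matrix.mulVec_mulVec, h1]
      | zero => rw [Matrix.mulVec_zero]; exact Submodule.zero_mem _
      | add a b _ _ ha hb => rw [Matrix.mulVec_add]; exact Submodule.add_mem _ ha hb
      | smul c a _ ha => rw [Matrix.mulVec_smul]; exact Submodule.smul_mem _ _ ha
    · intro e he x hx
      induction hx using Submodule.span_induction with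
      | mem w hw =>
        obtain ⟨l, v, hl, hlen, rfl⟩ := hw
        apply Submodule.subset_span
        cases l with
        | nil => simp at hlen; omega
        | cons a l =>
          refine ⟨(e * a) :: l, v, ?_, by simpa using hlen, ?_⟩
          · intro x hx
            rcases List.mem_cons.1 hx with rfl | hx
            · exact hJl e he a (hl a List.mem_cons_self)
            · exact hl x (List.mem_cons_of_mem _ hx)
          · rw [Matrix.mulVec_mulVec, List.prod_cons, List.prod_cons, Matrix.mul_assoc]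
      | zero => rw [Matrix.mulVec_zero]; exact Submodule.zero_mem _
      | add a b _ _ ha hb => rw [Matrix.mulVec_add]; exact Submodule.add_mem _ ha hb
      | smul c a _ ha => rw [Matrix.mulVec_smul]; exact Submodule.smul_mem _ _ ha
    · intro x hx y hy
      induction hx using Submodule.span_induction with
      | mem w hw =>
        obtain ⟨l, v, hl, hlen, rfl⟩ := hw
        induction hy using Submodule.span_induction with
        | mem w' hw' =>
          obtain ⟨l', v', hl', hlen', rfl⟩ := hw'
          have hA : ∀ l : List (Matrix n n K), l.prodᵀ * Q =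
              Q * ((l.map (fun a => Q⁻¹ * aᵀ * Q)).reverse).prod := by
            intro l
            induction l with
            | nil => simp
            | cons a l ih =>
              rw [List.prod_cons, transpose_mul, List.map_cons, List.reverse_cons,
                List.prod_append, List.prod_singleton, ← Matrix.mul_assoc, ← ih]
              calc l.prodᵀ * aᵀ * Q = l.prodᵀ * (Q * Q⁻¹) * aᵀ * Q := by
                    rw [hQ1, Matrix.mul_one]
                _ = l.prodᵀ * Q * (Q⁻¹ * aᵀ * Q) := by simp only [Matrix.mul_assoc]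
          have hz : (((l.map (fun a => Q⁻¹ * aᵀ * Q)).reverse) ++ l').prod = 0 := by
            apply hfind
            · intro x hx
              rcases List.mem_append.1 hx with hx | hx
              · obtain ⟨a, ha, rfl⟩ := List.mem_map.1 (List.mem_reverse.1 hx)
                exact hJadj a (hl a ha)
              · exact hl' x hx
            · rw [List.length_append, List.length_reverse, List.length_map]
              omega
          rw [Matrix.mulVec_mulVec, dotProduct_mulVec, vecMul_mulVec, ← dotProduct_mulVec]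
          have h3 : l.prodᵀ * (Q * l'.prod) = 0 := by
            rw [← Matrix.mul_assoc, hA, Matrix.mul_assoc, ← List.prod_append, hz, Matrix.mul_zero]
          rw [h3, Matrix.zero_mulVec, dotProduct_zero]
        | zero => rw [Matrix.mulVec_zero, dotProduct_zero]
        | add a b _ _ ha hb => rw [Matrix.mulVec_add, dotProduct_add, ha, hb, add_zero]
        | smul c a _ ha => rw [Matrix.mulVec_smul, dotProduct_smul, ha, smul_zero]
      | zero => rw [zero_dotProduct]
      | add a b _ _ ha hb => rw [add_dotProduct, ha, hb, add_zero]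
      | smul c a _ ha => rw [smul_dotProduct, ha, smul_zero]
  apply hl0
  ext i j
  have h1 : l0.prod *ᵥ (Pi.single j 1) ∈ Submodule.span K S :=
    Submodule.subset_span ⟨l0, _, hl0J, hl0len, rfl⟩
  rw [hW, Submodule.mem_bot] at h1
  have h2 := congrFun h1 i
  rw [Matrix.mulVec_single_one] at h2
  simpa using h2

end Pool.Agent.Y154.Trf
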