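import Pool.Agent.Y154.Trf

/-!
# Subspaces stable under the unitary elements of a star algebra
-/

set_option autoImplicit false

open Matrix

namespace Pool.Agent.Y154.Uni

variable {L : Type*} [Field L] [IsAlgClosed L] [CharZero L] {n : Type*}
    [Fintype n] [DecidableEq n]

omit [IsAlgClosed L] [CharZero L] in
/-- A subspace stable under an invertible matrix is stable under its inverse. -/
theorem inv_stable (F : Submodule L (n → L)) (g : Matrix n n L) (hg : IsUnit g.det)
    (h : ∀ x ∈ F, g *ᵥ x ∈ F) : ∀ x ∈ F, g⁻¹ *ᵥ x ∈ F := by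
  let φ : F →ₗ[L] F :=
    { toFun := fun x => ⟨g *ᵥ (x : n → L), h x x.2⟩
      map_add' := fun a b => by
        apply Subtype.ext
        show g *ᵥ ((a : n → L) + (b : n → L)) = g *ᵥ (a : n → L) + g *ᵥ (b : n → L)
        rw [Matrix.mulVec_add]
      map_smul' := fun c a => by
        apply Subtype.ext
        show g *ᵥ (c • (a : n → L)) = c • (g *ᵥ (a : n → L))
        rw [Matrix.mulVec_smul] }
  have hinj : Function.Injective φ := by
    intro a b hab
    have h1 : g *ᵥ (a : n → L) = g *ᵥ (b : n → L) := congrArg Subtype.val hab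
    have h2 := congrArg (fun t => g⁻¹ *ᵥ t) h1
    simp only [Matrix.mulVec_mulVec, Matrix.nonsing_inv_mul g hg, Matrix.one_mulVec] at h2
    exact Subtype.ext h2
  have hsurj : Function.Surjective φ := LinearMap.injective_iff_surjective.1 hinj
  intro x hx
  obtain ⟨y, hy⟩ := hsurj ⟨x, hx⟩
  have h1 : g *ᵥ (y : n → L) = x := congrArg Subtype.val hy
  rw [← h1, Matrix.mulVec_mulVec, Matrix.nonsing_inv_mul g hg, Matrix.one_mulVec]
  exact y.2

omit [IsAlgClosed L] [CharZero L] in
/-- The inverse of an invertible element of a subalgebra belongs to the subalgebra. -/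
theorem inv_mem (E : Subalgebra L (Matrix n n L)) (g : Matrix n n L) (hgE : g ∈ E)
    (hg : IsUnit g.det) : g⁻¹ ∈ E := by
  let φ : E →ₗ[L] E := LinearMap.mulLeft L (⟨g, hgE⟩ : E)
  have hinj : Function.Injective φ := by
    intro a b hab
    have h1 : g * (a : Matrix n n L) = g * (b : Matrix n n L) := congrArg Subtype.val hab
    have h2 := congrArg (fun t => g⁻¹ * t) h1
    simp only [← Matrix.mul_assoc, Matrix.nonsing_inv_mul g hg, Matrix.one_mul] at h2
    exact Subtype.ext h2
  have hsurj : Function.Surjective φ := LinearMap.injective_iff_surjective.1 hinj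
  obtain ⟨y, hy⟩ := hsurj 1
  have h1 : g * (y : Matrix n n L) = 1 := congrArg Subtype.val hy
  rw [Matrix.inv_eq_right_inv h1]
  exact y.2

omit [IsAlgClosed L] in
/-- For some nonzero scalar `t` the matrices `1 + t x` is invertible. -/
theorem exists_scalar (x : Matrix n n L) : ∃ t : L, t ≠ 0 ∧ IsUnit (1 + t • x).det := by
  have h1 : ((-x).charpoly) ≠ 0 := (Matrix.charpoly_monic _).ne_zero
  obtain ⟨s, hs⟩ : ∃ s : L, (Polynomial.X * (-x).charpoly).eval s ≠ 0 := by
    by_contra hcon
    push Not at hcon
    have h2 : Polynomial.X * (-x).charpoly = 0 := Polynomial.funext fun r => by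
      rw [hcon r, Polynomial.eval_zero]
    rcases mul_eq_zero.1 h2 with h | h
    · exact Polynomial.X_ne_zero h
    · exact h1 h
  rw [Polynomial.eval_mul, Polynomial.eval_X] at hs
  have hs0 : s ≠ 0 := left_ne_zero_of_mul hs
  have hs1 : (-x).charpoly.eval s ≠ 0 := right_ne_zero_of_mul hs
  refine ⟨s⁻¹, inv_ne_zero hs0, ?_⟩
  rw [Matrix.eval_charpoly] at hs1
  have h3 : (1 + s⁻¹ • x) = s⁻¹ • ((Matrix.scalar n) s - (-x)) := by
    rw [sub_neg_eq_add, smul_add]
    congr 1
    ext i j
    simp only [Matrix.smul_apply, Matrix.scalar_apply, Matrix.diagonal_apply, Matrix.one_apply,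
      smul_eq_mul]
    split_ifs
    · rw [inv_mul_cancel₀ hs0]
    · rw [mul_zero]
  rw [h3, Matrix.det_smul]
  exact (IsUnit.mk0 _ (pow_ne_zero _ (inv_ne_zero hs0))).mul (IsUnit.mk0 _ hs1)

omit [IsAlgClosed L] [CharZero L] in
/-- The trace of an idempotent matrix is a natural number. -/
theorem exists_nat_trace (e : Matrix n n L) (he : e * e = e) : ∃ N : ℕ, e.trace = (N : L) := by
  have h1 : IsIdempotentElem (Matrix.toLin' e) := by
    show Matrix.toLin' e * Matrix.toLin' e = Matrix.toLin' e
    rw [Module.End.mul_eq_comp, ← Matrix.toLin'_mul, he]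
  refine ⟨Module.finrank L (LinearMap.range (Matrix.toLin' e)), ?_⟩
  rw [← Matrix.trace_toLin'_eq]
  exact (LinearMap.IsIdempotentElem.isProj_range _ h1).trace

omit [IsAlgClosed L] [CharZero L] in
/-- A matrix which is not nilpotent has a nonzero idempotent among its polynomials without constant
term. -/
theorem exists_idem (y : Matrix n n L) (hy : ¬ IsNilpotent y) : ∃ r : Polynomial L,
    (y * Polynomial.aeval y r) * (y * Polynomial.aeval y r) = y * Polynomial.aeval y r ∧
    y * Polynomial.aeval y r ≠ 0 := by
  have hint : IsIntegral L y := Algebra.IsIntegral.isIntegral y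
  have hne : minpoly L y ≠ 0 := minpoly.ne_zero hint
  obtain ⟨g, hg, hnd⟩ := Polynomial.exists_eq_pow_rootMultiplicity_mul_and_not_dvd
    (minpoly L y) hne 0
  set m := (minpoly L y).rootMultiplicity 0 with hm
  rw [Polynomial.C_0, sub_zero] at hg hnd
  have hcop : IsCoprime (Polynomial.X : Polynomial L) g :=
    (Polynomial.prime_X.coprime_iff_not_dvd).2 hnd
  have hcop' : IsCoprime ((Polynomial.X : Polynomial L) ^ (m + 1)) g := hcop.pow_left
  obtain ⟨u, v, huv⟩ := hcop'
  have hmul : ∀ p : Polynomial L, minpoly L y ∣ p → Polynomial.aeval y p = 0 := by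
    rintro p ⟨r, rfl⟩
    rw [map_mul, minpoly.aeval, zero_mul]
  have hexy : y * Polynomial.aeval y (u * Polynomial.X ^ m) =
      Polynomial.aeval y (u * Polynomial.X ^ (m + 1)) := by
    have : u * Polynomial.X ^ (m + 1) = Polynomial.X * (u * Polynomial.X ^ m) := by ring
    rw [this, map_mul (Polynomial.aeval y) Polynomial.X, Polynomial.aeval_X]
  refine ⟨u * Polynomial.X ^ m, ?_, ?_⟩
  · rw [hexy]
    set e := Polynomial.aeval y (u * Polynomial.X ^ (m + 1)) with he
    have hone : e + Polynomial.aeval y (v * g) = 1 := by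
      rw [he, ← map_add, huv, map_one]
    have h1 : e * Polynomial.aeval y (v * g) = 0 := by
      rw [he, ← map_mul]
      apply hmul
      rw [hg]
      exact ⟨u * Polynomial.X * v, by ring⟩
    have h2 := congrArg (fun t => e * t) hone
    simp only [mul_add, mul_one] at h2
    rw [h1, add_zero] at h2
    exact h2
  · intro h0
    rw [hexy] at h0
    apply hy
    have hone : Polynomial.aeval y (v * g) = 1 := by
      have h1 : Polynomial.aeval y (u * Polynomial.X ^ (m + 1)) +
          Polynomial.aeval y (v * g) = 1 := by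
        rw [← map_add, huv, map_one]
      rw [h0, zero_add] at h1
      exact h1
    refine ⟨m, ?_⟩
    calc y ^ m = y ^ m * Polynomial.aeval y (v * g) := by rw [hone, mul_one]
      _ = Polynomial.aeval y (Polynomial.X ^ m * (v * g)) := by
          rw [map_mul (Polynomial.aeval y) (Polynomial.X ^ m), map_pow, Polynomial.aeval_X]
      _ = 0 := by
          apply hmul
          rw [hg]
          exact ⟨v, by ring⟩

omit [CharZero L] in
/-- An endomorphism of the nonzero image of an idempotent has an eigenvector there. -/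
theorem exists_eigen (p x : Matrix n n L) (hp : p * p = p) (hp0 : p ≠ 0) (hx : p * x = x) :
    ∃ (l : L) (v : n → L), v ≠ 0 ∧ p *ᵥ v = v ∧ x *ᵥ v = l • v := by
  let R : Submodule L (n → L) := LinearMap.range (Matrix.toLin' p)
  have hR : ∀ v ∈ R, p *ᵥ v = v := by
    rintro v ⟨w, rfl⟩
    rw [Matrix.toLin'_apply, Matrix.mulVec_mulVec, hp]
  have hR' : ∀ v : n → L, x *ᵥ v ∈ R := by
    intro v
    refine ⟨x *ᵥ v, ?_⟩
    rw [Matrix.toLin'_apply, Matrix.mulVec_mulVec, hx]
  have hnt : Nontrivial R := by
    rw [Submodule.nontrivial_iff_ne_bot]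
    intro h0
    apply hp0
    have : Matrix.toLin' p = 0 := LinearMap.range_eq_bot.1 h0
    exact (Matrix.toLin'.map_eq_zero_iff).1 this
  let φ : Module.End L R :=
    { toFun := fun v => ⟨x *ᵥ (v : n → L), hR' _⟩
      map_add' := fun a b => by
        apply Subtype.ext
        show x *ᵥ ((a : n → L) + (b : n → L)) = x *ᵥ (a : n → L) + x *ᵥ (b : n → L)
        rw [Matrix.mulVec_add]
      map_smul' := fun c a => by
        apply Subtype.ext
        show x *ᵥ (c • (a : n → L)) = c • (x *ᵥ (a : n → L))
        rw [Matrix.mulVec_smul] }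
  obtain ⟨l, hl⟩ := Module.End.exists_eigenvalue φ
  obtain ⟨v, hv⟩ := hl.exists_hasEigenvector
  refine ⟨l, v, ?_, hR _ v.2, ?_⟩
  · intro h0
    exact hv.2 (Subtype.ext h0)
  · have h1 := hv.apply_eq_smul
    exact congrArg Subtype.val h1

/-- **Lemma U.** A subspace which is stable under the unitary elements of a star algebra with
nondegenerate trace form is stable under the algebra. -/
theorem unitary_stable (E : Subalgebra L (Matrix n n L))
    (σ : Matrix n n L →ₗ[L] Matrix n n L) (hσ : ∀ x ∈ E, σ x ∈ E)
    (hσ2 : ∀ x ∈ E, σ (σ x) = x) (hmul : ∀ x ∈ E, ∀ y ∈ E, σ (x * y) = σ y * σ x)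
    (htr : ∀ x ∈ E, (σ x).trace = x.trace)
    (hnd : ∀ x ∈ E, (∀ y ∈ E, (x * y).trace = 0) → x = 0)
    (F : Submodule L (n → L)) (hF : ∀ u ∈ E, σ u * u = 1 → ∀ x ∈ F, u *ᵥ x ∈ F) :
    ∀ e ∈ E, ∀ x ∈ F, e *ᵥ x ∈ F := by
  have h2 : (2 : L) ≠ 0 := two_ne_zero
  have hs1 : σ 1 = 1 := by
    have h1 := hσ2 1 E.one_mem
    have h3 := hmul (σ 1) (hσ 1 E.one_mem) 1 E.one_mem
    rw [mul_one, h1, mul_one] at h3
    exact h3.symm
  -- stability
  set P : Matrix n n L → Prop := fun e => ∀ x ∈ F, e *ᵥ x ∈ F with hP
  have Padd : ∀ a b, P a → P b → P (a + b) := by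
    intro a b ha hb x hx
    rw [Matrix.add_mulVec]
    exact F.add_mem (ha x hx) (hb x hx)
  have Psmul : ∀ (c : L) a, P a → P (c • a) := by
    intro c a ha x hx
    rw [Matrix.smul_mulVec]
    exact F.smul_mem c (ha x hx)
  have Pmul : ∀ a b, P a → P b → P (a * b) := by
    intro a b ha hb x hx
    rw [← Matrix.mulVec_mulVec]
    exact ha _ (hb x hx)
  have Pone : P 1 := fun x hx => by rwa [Matrix.one_mulVec]
  have Psub : ∀ a b, P a → P b → P (a - b) := by
    intro a b ha hb
    have h := Padd a ((-1 : L) • b) ha (Psmul (-1) b hb)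
    rwa [neg_one_smul, ← sub_eq_add_neg] at h
  have Pscale : ∀ (c : L) a, c ≠ 0 → P (c • a) → P a := by
    intro c a hc ha
    have h := Psmul c⁻¹ (c • a) ha
    rwa [smul_smul, inv_mul_cancel₀ hc, one_smul] at h
  -- symmetric idempotents
  have Pidem : ∀ p ∈ E, σ p = p → p * p = p → P p := by
    intro p hp hsp hpp
    have hu : σ (1 - (2 : L) • p) * (1 - (2 : L) • p) = 1 := by
      rw [map_sub, map_smul, hs1, hsp]
      have : (1 - (2 : L) • p) * (1 - (2 : L) • p) = 1 - (4 : L) • p + (4 : L) • (p * p) := by
        simp only [mul_sub, sub_mul, one_mul, mul_one, smul_mul_assoc, mul_smul_comm, smul_sub,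
          smul_smul]
        have h4 : (2 : L) * 2 = 4 := by norm_num
        rw [h4]
        have h5 : (4 : L) • p = (2 : L) • p + (2 : L) • p := by
          rw [← add_smul]; norm_num
        rw [h5]
        abel
      rw [this, hpp]
      abel
    have hPu := hF _ (E.sub_mem E.one_mem (E.smul_mem hp 2)) hu
    have h3 : P ((2 : L) • p) := by
      have h4 := Psub 1 _ Pone hPu
      rwa [sub_sub_cancel] at h4
    exact Pscale 2 p h2 h3
  -- skew elements
  have Pskew : ∀ x ∈ E, σ x = -x → P x := by
    intro x hx hsx
    obtain ⟨t, ht, hdet⟩ := exists_scalar x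
    set g := 1 + t • x with hg
    set h := 1 - t • x with hh
    have hgE : g ∈ E := E.add_mem E.one_mem (E.smul_mem hx t)
    have hhE : h ∈ E := E.sub_mem E.one_mem (E.smul_mem hx t)
    have hwE : g⁻¹ ∈ E := inv_mem E g hgE hdet
    have hsg : σ g = h := by
      rw [hg, hh, map_add, map_smul, hs1, hsx, smul_neg, sub_eq_add_neg]
    have hsh : σ h = g := by
      rw [hg, hh, map_sub, map_smul, hs1, hsx, smul_neg, sub_neg_eq_add]
    have hcomm : g * h = h * g := by
      rw [hg, hh]
      simp only [mul_sub, sub_mul, add_mul, mul_add, one_mul, mul_one]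
      abel
    have hgw : g * g⁻¹ = 1 := Matrix.mul_nonsing_inv g hdet
    have hwg : g⁻¹ * g = 1 := Matrix.nonsing_inv_mul g hdet
    have hunit : σ (h * g⁻¹) * (h * g⁻¹) = 1 := by
      rw [hmul h hhE _ hwE, hsh]
      calc σ g⁻¹ * g * (h * g⁻¹) = σ g⁻¹ * (g * h) * g⁻¹ := by simp only [Matrix.mul_assoc]
        _ = σ g⁻¹ * h * (g * g⁻¹) := by rw [hcomm]; simp only [Matrix.mul_assoc]
        _ = σ g⁻¹ * σ g := by rw [hgw, mul_one, hsg]
        _ = σ (g * g⁻¹) := (hmul g hgE _ hwE).symm
        _ = 1 := by rw [hgw, hs1]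
    have hPu : P (h * g⁻¹) := hF _ (E.mul_mem hhE hwE) hunit
    have hPw : P g⁻¹ := by
      have h3 := Padd 1 _ Pone hPu
      have h4 : 1 + h * g⁻¹ = (2 : L) • g⁻¹ := by
        have h5 : (1 : Matrix n n L) = g * g⁻¹ := hgw.symm
        nth_rw 1 [h5]
        rw [← add_mul]
        have h6 : g + h = (2 : L) • (1 : Matrix n n L) := by
          rw [hg, hh]
          have : (2 : L) • (1 : Matrix n n L) = 1 + 1 := by rw [two_smul]
          rw [this]; abel
        rw [h6, smul_mul_assoc, one_mul]
      rw [h4] at h3
      exact Pscale 2 _ h2 h3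
    have hwdet : IsUnit (g⁻¹).det := Matrix.isUnit_nonsing_inv_det g hdet
    have hPg : P g := by
      have h3 := inv_stable F g⁻¹ hwdet hPw
      rwa [Matrix.nonsing_inv_nonsing_inv g hdet] at h3
    have h4 : P (t • x) := by
      have h5 := Psub g 1 hPg Pone
      rwa [hg, add_sub_cancel_left] at h5
    exact Pscale t x ht h4
  -- the claim
  have claim : ∀ N : ℕ, ∀ p ∈ E, σ p = p → p * p = p → p.trace = (N : L) →
      ∀ x ∈ E, P (p * x * p) := by
    intro N
    induction N using Nat.strong_induction_on with
    | _ N ih =>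
    intro p hp hsp hpp hpt
    by_cases hp0 : p = 0
    · intro x _
      rw [hp0]
      intro v _
      rw [Matrix.mul_zero, Matrix.zero_mulVec]
      exact F.zero_mem
    have hpt0 : p.trace ≠ 0 := fun h => hp0 (Trf.eq_zero_of_idem p hpp h)
    by_cases hB : ∀ x ∈ E, σ x = x → p * x * p = x → ∃ l : L, IsNilpotent (x - l • p)
    · -- case B
      have hnil : ∀ x ∈ E, σ x = x → p * x * p = x → x.trace = 0 → IsNilpotent x := by
        intro x hx hsx hpx htx
        obtain ⟨l, hl⟩ := hB x hx hsx hpx
        have h3 : (x - l • p).trace = 0 :=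
          (Matrix.isNilpotent_trace_of_isNilpotent hl).eq_zero
        rw [trace_sub, htx, trace_smul, zero_sub, neg_eq_zero, smul_eq_mul] at h3
        have hl0 : l = 0 := (mul_eq_zero.1 h3).resolve_right hpt0
        rwa [hl0, zero_smul, sub_zero] at hl
      have hsq : ∀ x ∈ E, σ x = x → p * x * p = x → x.trace = 0 → (x * x).trace = 0 := by
        intro x hx hsx hpx htx
        have h3 := hnil x hx hsx hpx htx
        have h4 : IsNilpotent (x * x) := by
          have h5 := h3.pow_succ 1
          rwa [pow_succ, pow_one] at h5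
        exact (Matrix.isNilpotent_trace_of_isNilpotent h4).eq_zero
      have hzero : ∀ a ∈ E, σ a = a → p * a * p = a → a.trace = 0 → a = 0 := by
        intro a ha hsa hpa hta
        have hap : a * p = a := by
          rw [← hpa, Matrix.mul_assoc, hpp]
        have hpa' : p * a = a := by
          rw [← hpa, ← Matrix.mul_assoc, ← Matrix.mul_assoc, hpp]
        apply hnd a ha
        intro y hy
        have h3 : (a * y).trace = (a * (p * y * p)).trace := by
          have h4 : a * (p * y * p) = (a * p) * (y * p) := by simp only [Matrix.mul_assoc]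
          rw [h4, hap, ← Matrix.mul_assoc, Matrix.trace_mul_comm (a * y) p, ← Matrix.mul_assoc,
            hpa']
        rw [h3]
        set z := p * y * p with hz
        have hzE : z ∈ E := E.mul_mem (E.mul_mem hp hy) hp
        have hszE : σ z ∈ E := hσ z hzE
        have hpz : p * z * p = z := by
          rw [hz]
          calc p * (p * y * p) * p = (p * p) * y * (p * p) := by simp only [Matrix.mul_assoc]
            _ = p * y * p := by rw [hpp]
        have hpsz : p * σ z * p = σ z := by
          have h4 : σ (p * z * p) = p * σ z * p := by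
            rw [hmul _ (E.mul_mem hp hzE) _ hp, hmul _ hp _ hzE, hsp, ← Matrix.mul_assoc]
          rw [← h4, hpz]
        -- symmetric part
        set b := z + σ z with hb
        have hbE : b ∈ E := E.add_mem hzE hszE
        have hsb : σ b = b := by rw [hb, map_add, hσ2 z hzE, add_comm]
        have hpb : p * b * p = b := by rw [hb, mul_add, add_mul, hpz, hpsz]
        set c := b.trace / p.trace with hc
        set m := b - c • p with hm
        have hmE : m ∈ E := E.sub_mem hbE (E.smul_mem hp c)
        have hsm : σ m = m := by rw [hm, map_sub, map_smul, hsb, hsp]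
        have hpm : p * m * p = m := by
          rw [hm, mul_sub, sub_mul, hpb, mul_smul_comm, smul_mul_assoc, hpp, hpp]
        have htm : m.trace = 0 := by
          rw [hm, trace_sub, trace_smul, hc, smul_eq_mul, div_mul_cancel₀ _ hpt0, sub_self]
        have ham : (a * m).trace = 0 := by
          have h5 := hsq (a + m) (E.add_mem ha hmE) (by rw [map_add, hsa, hsm])
            (by rw [mul_add, add_mul, hpa, hpm]) (by rw [trace_add, hta, htm, add_zero])
          have h6 := hsq a ha hsa hpa hta
          have h7 := hsq m hmE hsm hpm htm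
          rw [mul_add, add_mul, add_mul, trace_add, trace_add, trace_add, h6, h7,
            Matrix.trace_mul_comm m a, zero_add, add_zero, ← two_mul] at h5
          exact (mul_eq_zero.1 h5).resolve_left h2
        have hab : (a * b).trace = 0 := by
          have h5 : b = m + c • p := by rw [hm, sub_add_cancel]
          rw [h5, mul_add, trace_add, ham, mul_smul_comm, trace_smul, hap, hta, smul_zero,
            add_zero]
        have hask : (a * (z - σ z)).trace = 0 := by
          have hkE : z - σ z ∈ E := E.sub_mem hzE hszE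
          have h5 := htr _ (E.mul_mem ha hkE)
          rw [hmul a ha _ hkE, map_sub, hσ2 z hzE, hsa, Matrix.trace_mul_comm] at h5
          have h6 : a * (σ z - z) = -(a * (z - σ z)) := by rw [← mul_neg, neg_sub]
          rw [h6, trace_neg] at h5
          have h7 : (2 : L) * (a * (z - σ z)).trace = 0 := by
            linear_combination -h5
          exact (mul_eq_zero.1 h7).resolve_left h2
        have h8 : (2 : L) • z = b + (z - σ z) := by
          rw [hb, two_smul]; abel
        have h9 : (2 : L) * (a * z).trace = 0 := by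
          rw [← smul_eq_mul, ← trace_smul, ← mul_smul_comm, h8, mul_add, trace_add, hab, hask,
            add_zero]
        exact (mul_eq_zero.1 h9).resolve_left h2
      intro x hx
      set z := p * x * p with hz
      have hzE : z ∈ E := E.mul_mem (E.mul_mem hp hx) hp
      have hszE : σ z ∈ E := hσ z hzE
      have hpz : p * z * p = z := by
        rw [hz]
        calc p * (p * x * p) * p = (p * p) * x * (p * p) := by simp only [Matrix.mul_assoc]
          _ = p * x * p := by rw [hpp]
      have hpsz : p * σ z * p = σ z := by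
        have h4 : σ (p * z * p) = p * σ z * p := by
          rw [hmul _ (E.mul_mem hp hzE) _ hp, hmul _ hp _ hzE, hsp, ← Matrix.mul_assoc]
        rw [← h4, hpz]
      set b := z + σ z with hb
      have hbE : b ∈ E := E.add_mem hzE hszE
      have hsb : σ b = b := by rw [hb, map_add, hσ2 z hzE, add_comm]
      have hpb : p * b * p = b := by rw [hb, mul_add, add_mul, hpz, hpsz]
      set c := b.trace / p.trace with hc
      have hm0 : b - c • p = 0 := by
        apply hzero
        · exact E.sub_mem hbE (E.smul_mem hp c)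
        · rw [map_sub, map_smul, hsb, hsp]
        · rw [mul_sub, sub_mul, hpb, mul_smul_comm, smul_mul_assoc, hpp, hpp]
        · rw [trace_sub, trace_smul, hc, smul_eq_mul, div_mul_cancel₀ _ hpt0, sub_self]
      have hPb : P b := by
        rw [sub_eq_zero.1 hm0]
        exact Psmul c p (Pidem p hp hsp hpp)
      have hPk : P (z - σ z) := by
        apply Pskew _ (E.sub_mem hzE hszE)
        rw [map_sub, hσ2 z hzE, neg_sub]
      have h8 : (2 : L) • z = b + (z - σ z) := by
        rw [hb, two_smul]; abel
      apply Pscale 2 z h2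
      rw [h8]
      exact Padd _ _ hPb hPk
    · -- case A
      push Not at hB
      obtain ⟨x, hx, hsx, hpx, hxn⟩ := hB
      have hpx' : p * x = x := by
        rw [← hpx, ← Matrix.mul_assoc, ← Matrix.mul_assoc, hpp]
      have hxp' : x * p = x := by
        rw [← hpx, Matrix.mul_assoc, hpp]
      obtain ⟨l, v, hv0, hpv, hxv⟩ := exists_eigen p x hpp hp0 hpx'
      set y := x - l • p with hy
      have hyE : y ∈ E := E.sub_mem hx (E.smul_mem hp l)
      have hsy : σ y = y := by rw [hy, map_sub, map_smul, hsx, hsp]
      have hpy : p * y = y := by rw [hy, mul_sub, hpx', mul_smul_comm, hpp]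
      have hyp : y * p = y := by rw [hy, sub_mul, hxp', smul_mul_assoc, hpp]
      have hyv : y *ᵥ v = 0 := by
        rw [hy, Matrix.sub_mulVec, Matrix.smul_mulVec, hpv, hxv, sub_self]
      obtain ⟨r, hqq, hq0⟩ := exists_idem y (hxn l)
      set w := Polynomial.aeval y r with hw
      set q := y * w with hq
      have hwE : w ∈ E := by
        have h1 := Polynomial.aeval_subalgebra_coe r E ⟨y, hyE⟩
        rw [hw, ← h1]
        exact Subtype.property _
      have hqE : q ∈ E := E.mul_mem hyE hwE
      have hpowE : ∀ k : ℕ, y ^ k ∈ E := fun k => E.pow_mem hyE k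
      have hspow : ∀ k : ℕ, σ (y ^ k) = y ^ k := by
        intro k
        induction k with
        | zero => rw [pow_zero, hs1]
        | succ k ihk => rw [pow_succ, hmul _ (hpowE k) _ hyE, hsy, ihk, ← pow_succ, ← pow_succ']
      have hsw : σ w = w := by
        rw [hw, Polynomial.aeval_eq_sum_range, map_sum]
        refine Finset.sum_congr rfl fun k _ => ?_
        rw [map_smul, hspow]
      have hyw : y * w = w * y := by
        have h1 : Polynomial.aeval y (Polynomial.X * r) =
            Polynomial.aeval y (r * Polynomial.X) := by rw [mul_comm]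
        rwa [map_mul, map_mul, Polynomial.aeval_X] at h1
      have hsq' : σ q = q := by rw [hq, hmul y hyE w hwE, hsw, hsy, hyw]
      have hpq : p * q = q := by rw [hq, ← Matrix.mul_assoc, hpy]
      have hqp : q * p = q := by rw [hq, hyw, Matrix.mul_assoc, hyp]
      have hqv : q *ᵥ v = 0 := by
        rw [hq, hyw, ← Matrix.mulVec_mulVec, hyv, Matrix.mulVec_zero]
      set s := p - q with hs
      have hsE : s ∈ E := E.sub_mem hp hqE
      have hss : σ s = s := by rw [hs, map_sub, hsp, hsq']
      have hsidem : s * s = s := by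
        rw [hs, mul_sub, sub_mul, sub_mul, hpp, hqp, hpq, hqq, sub_self, sub_zero]
      have hs0 : s ≠ 0 := by
        intro h0
        have h3 : s *ᵥ v = v := by rw [hs, Matrix.sub_mulVec, hpv, hqv, sub_zero]
        rw [h0, Matrix.zero_mulVec] at h3
        exact hv0 h3.symm
      have hqs : q * s = 0 := by rw [hs, mul_sub, hqp, hqq, sub_self]
      have hsq2 : s * q = 0 := by rw [hs, sub_mul, hpq, hqq, sub_self]
      obtain ⟨N1, hN1⟩ := exists_nat_trace q hqq
      obtain ⟨N2, hN2⟩ := exists_nat_trace s hsidem
      have hN1' : N1 ≠ 0 := by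
        intro h0
        rw [h0, Nat.cast_zero] at hN1
        exact hq0 (Trf.eq_zero_of_idem q hqq hN1)
      have hN2' : N2 ≠ 0 := by
        intro h0
        rw [h0, Nat.cast_zero] at hN2
        exact hs0 (Trf.eq_zero_of_idem s hsidem hN2)
      have hNN : N = N1 + N2 := by
        have h3 : p.trace = q.trace + s.trace := by rw [hs, trace_sub]; ring
        rw [hpt, hN1, hN2] at h3
        exact_mod_cast h3
      intro a ha
      have hp' : p = q + s := by rw [hs]; abel
      have hdec : p * a * p = q * a * q + s * a * s + (q * a * s + s * a * q) := by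
        rw [hp']
        simp only [add_mul, mul_add]
        abel
      rw [hdec]
      have hmix : ∀ e f : Matrix n n L, e ∈ E → f ∈ E → σ e = e → σ f = f → e * e = e →
          e * f = 0 → P (e * a * f) := by
        intro e f he hf hse hsf hee hef
        set z := e * a * f with hz
        have hzE : z ∈ E := E.mul_mem (E.mul_mem he ha) hf
        have hszE : σ z ∈ E := hσ z hzE
        have hsz : σ z = f * (σ a * e) := by
          rw [hz, hmul _ (E.mul_mem he ha) _ hf, hmul _ he _ ha, hse, hsf]
        have h3 : e * (z - σ z) = z := by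
          rw [mul_sub, hsz, ← Matrix.mul_assoc e f, hef, Matrix.zero_mul, sub_zero, hz,
            ← Matrix.mul_assoc, ← Matrix.mul_assoc, hee]
        rw [← h3]
        apply Pmul
        · exact Pidem e he hse hee
        · apply Pskew _ (E.sub_mem hzE hszE)
          rw [map_sub, hσ2 z hzE, neg_sub]
      apply Padd
      · apply Padd
        · exact ih N1 (by omega) q hqE hsq' hqq hN1 a ha
        · exact ih N2 (by omega) s hsE hss hsidem hN2 a ha
      · apply Padd
        · exact hmix q s hqE hsE hsq' hss hqq hqs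
        · exact hmix s q hsE hqE hss hsq' hsidem hsq2
  intro e he
  obtain ⟨N, hN⟩ := exists_nat_trace (1 : Matrix n n L) (mul_one 1)
  have h3 := claim N 1 E.one_mem hs1 (mul_one 1) hN e he
  rw [one_mul, mul_one] at h3
  exact h3

end Pool.Agent.Y154.Uni

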